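import Pool.Agent.BOX.StmtsT

/-!
# Squad BOX (MP_be01ff_an), row FRT: the frame for rectangles
-/

set_option autoImplicit false

namespace Pool.Agent.BOX.H66

open Set Filter Topology MeasureTheory

theorem exd_summable {f : ℤ → ℂ} (h : Exd f) : Summable fun n => ‖f n‖ := by
  obtain ⟨r, hr, hs⟩ := h
  refine Summable.of_nonneg_of_le (fun n => norm_nonneg _) (fun n => ?_) hs
  exact le_mul_of_one_le_right (norm_nonneg _) (one_le_pow₀ (le_of_lt hr))

theorem hat_summable {f : ℤ → ℂ} (h : Summable fun n => ‖f n‖) :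
    Summable fun n => ‖hat f n‖ := by
  have h2 : Summable fun n : ℤ => ‖f (-n)‖ :=
    ((Equiv.neg ℤ).summable_iff (f := fun n => ‖f n‖)).2 h
  refine Summable.of_nonneg_of_le (fun n => norm_nonneg _) (fun n => ?_) (h.add h2)
  unfold hat
  split_ifs
  · exact le_add_of_nonneg_right (norm_nonneg _)
  · rw [RCLike.norm_conj]
    exact le_add_of_nonneg_left (norm_nonneg _)
  · rw [norm_zero]
    exact add_nonneg (norm_nonneg _) (norm_nonneg _)

theorem hat_oddf {f : ℤ → ℂ} (h : Oddf f) : Oddf (hat f) := by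
  intro n hn
  unfold hat
  split_ifs
  · exact h n hn
  · rw [h (-n) (fun hh => hn (by simpa using hh.neg)), map_zero]
  · rfl

theorem hat_eq {w : ℤ → ℝ} (he : ∀ n, w (-n) = w n) (ho : ∀ n, ¬ Odd n → w n = 0) :
    hat (fun n => (w n : ℂ)) = fun n => (w n : ℂ) := by
  funext n
  unfold hat
  split_ifs with h1 h2
  · rfl
  · show (starRingEnd ℂ) ((w (-n) : ℝ) : ℂ) = ((w n : ℝ) : ℂ)
    rw [he n, Complex.conj_ofReal]
  · have h0 : n = 0 := le_antisymm (not_lt.1 h1) (not_lt.1 h2)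
    show (0 : ℂ) = ((w n : ℝ) : ℂ)
    rw [h0, ho 0 (by decide), Complex.ofReal_zero]

theorem T3_ofReal (w : ℤ → ℝ) (n : ℤ) :
    T3 (fun n => (w n : ℂ)) (fun n => (w n : ℂ)) (fun n => (w n : ℂ)) n =
      ((T3 w w w n : ℝ) : ℂ) := by
  unfold T3
  rw [Complex.ofReal_tsum]
  refine tsum_congr fun h => ?_
  push_cast
  rfl

theorem pr_ofReal (w : ℤ → ℝ) (he : ∀ n, w (-n) = w n) :
    pr (fun n => (w n : ℂ)) (fun n => (w n : ℂ)) = ((∑' q, w q ^ 2 : ℝ) : ℂ) := by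
  unfold pr
  rw [Complex.ofReal_tsum]
  refine tsum_congr fun q => ?_
  show ((w q : ℝ) : ℂ) * ((w (-q) : ℝ) : ℂ) = ((w q ^ 2 : ℝ) : ℂ)
  rw [he q]
  push_cast
  ring

/-- the value of a class function at the representative of the first class -/
theorem cl2_fst (f1 f2 : ℤ → ℂ) (n : ℤ) (h0 : 0 < n) (hn : Odd n) :
    cl2 f1 f2 ((n, 0), ![n, n]) = f1 n := by
  unfold cl2
  have h1 : ((n, (0 : ℤ)), ![n, n]).1.2 = 0 ∧ Odd ((n, (0 : ℤ)), ![n, n]).1.1 ∧
      |((n, (0 : ℤ)), ![n, n]).2 0| = |((n, (0 : ℤ)), ![n, n]).1.1| ∧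
      |((n, (0 : ℤ)), ![n, n]).2 1| = |((n, (0 : ℤ)), ![n, n]).1.1| := ⟨rfl, hn, rfl, rfl⟩
  have h2 : ¬ (((n, (0 : ℤ)), ![n, n]).1.1 = 0 ∧ Odd ((n, (0 : ℤ)), ![n, n]).1.2 ∧
      |((n, (0 : ℤ)), ![n, n]).2 0| = |((n, (0 : ℤ)), ![n, n]).1.2| ∧
      |((n, (0 : ℤ)), ![n, n]).2 1| = 2 * |((n, (0 : ℤ)), ![n, n]).1.2|) :=
    fun hh => h0.ne' hh.1
  rw [if_pos h1, if_neg h2, add_zero]
  have h3 : Int.sign (((n, (0 : ℤ)), ![n, n]).2 0 * ((n, (0 : ℤ)), ![n, n]).2 1) = 1 :=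
    Int.sign_eq_one_of_pos (mul_pos h0 h0)
  rw [h3, Int.cast_one, one_mul]

/-- the value of a class function at the representative of the second class -/
theorem cl2_snd (f1 f2 : ℤ → ℂ) (n : ℤ) (h0 : 0 < n) (hn : Odd n) :
    cl2 f1 f2 ((0, n), ![n, 2 * n]) = f2 n := by
  unfold cl2
  have h1 : ¬ ((((0 : ℤ), n), ![n, 2 * n]).1.2 = 0 ∧ Odd (((0 : ℤ), n), ![n, 2 * n]).1.1 ∧
      |(((0 : ℤ), n), ![n, 2 * n]).2 0| = |(((0 : ℤ), n), ![n, 2 * n]).1.1| ∧
      |(((0 : ℤ), n), ![n, 2 * n]).2 1| = |(((0 : ℤ), n), ![n, 2 * n]).1.1|) :=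
    fun hh => h0.ne' hh.1
  have h2 : (((0 : ℤ), n), ![n, 2 * n]).1.1 = 0 ∧ Odd (((0 : ℤ), n), ![n, 2 * n]).1.2 ∧
      |(((0 : ℤ), n), ![n, 2 * n]).2 0| = |(((0 : ℤ), n), ![n, 2 * n]).1.2| ∧
      |(((0 : ℤ), n), ![n, 2 * n]).2 1| = 2 * |(((0 : ℤ), n), ![n, 2 * n]).1.2| := by
    refine ⟨rfl, hn, rfl, ?_⟩
    show |2 * n| = 2 * |n|
    rw [abs_mul, abs_two]
  rw [if_neg h1, if_pos h2, zero_add]
  have h3 : Int.sign ((((0 : ℤ), n), ![n, 2 * n]).2 0 * (((0 : ℤ), n), ![n, 2 * n]).2 1) = 1 :=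
    Int.sign_eq_one_of_pos (mul_pos h0 (mul_pos two_pos h0))
  rw [h3, Int.cast_one, one_mul]

theorem pos_of {f : ℤ → ℂ} {n : ℤ} (h : 0 < n) : pos f n = f n := if_pos h

/-- two families of the class which agree at the representatives agree on the resonant set -/
theorem ext_R2 (clt : CltStmt) {F G : G2 → ℂ} (hF : Good2 F) (hG : Good2 G)
    (h1 : ∀ n, 0 < n → Odd n → F ((n, 0), ![n, n]) = G ((n, 0), ![n, n]))
    (h2 : ∀ n, 0 < n → Odd n → F ((0, n), ![n, 2 * n]) = G ((0, n), ![n, 2 * n])) :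
    ∀ g ∈ R2, F g = G g := by
  intro g hg
  have hf := (clt.2 F hF).2.2 g hg
  have hgg := (clt.2 G hG).2.2 g hg
  rcases hg with ⟨ha, hb, hc, _, _⟩ | ⟨ha, hb, hc, _, _⟩
  · rw [hf.1 ha, hgg.1 ha, h1 _ hb hc]
  · rw [hf.2 ha, hgg.2 ha, h2 _ hb hc]

theorem frt (_T3S : T3sStmt) (NRT : NrtStmt) (FMT : FmtStmt) (PRT : PrtStmt) (INT : IntStmt)
    (GDT : GdtStmt) (CLT : CltStmt) : FrtStmt := by
  intro l hl hdio
  obtain ⟨hdiv, hzero⟩ := NRT l hl hdio
  obtain ⟨gadd, gsmul, gt3, gdiv, gsum, gnz, gsm⟩ := GDT l hl hdiv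
  obtain ⟨w, ν, r, hw⟩ := PRT
  have hWexd : Exd (fun n => (w n : ℂ)) := by
    refine ⟨r, hw.r1, ?_⟩
    refine hw.sum.congr fun n => ?_
    rw [Complex.norm_real, Real.norm_eq_abs]
  have hWodd : Oddf (fun n => (w n : ℂ)) := fun n hn => by
    show ((w n : ℝ) : ℂ) = 0
    rw [hw.odd n hn, Complex.ofReal_zero]
  have hWhat := hat_eq hw.even hw.odd
  have hWs := exd_summable hWexd
  obtain ⟨hW0good, hW0supp, hVW0⟩ := CLT.1 _ _ hWexd hWexd hWodd hWodd
  rw [hWhat] at hVW0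
  set W : ℤ → ℂ := fun n => (w n : ℂ) with hWdef
  have hνpos : 0 < ν := lt_of_lt_of_le (by norm_num) hw.ν1
  have hgood0 : Good2 (fun g => 2 * cl2 (pos W) (pos W) g) := by
    have := gsmul 2 _ hW0good
    simpa using this
  have hVgood3 : Good2 (T3 (Vp (fun g => 2 * cl2 (pos W) (pos W) g))
      (Vp (fun g => 2 * cl2 (pos W) (pos W) g)) (Vp (fun g => 2 * cl2 (pos W) (pos W) g))) :=
    gt3 _ _ _ hgood0 hgood0 hgood0
  -- the cubic expression of the profile
  have hcub : ∀ n, Odd n → K1 3 2 W W W n + X1 W W W W W W n = (ν : ℂ) * W n := by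
    intro n hn
    have h1 : W (-n) = W n := by
      show ((w (-n) : ℝ) : ℂ) = _
      rw [hw.even n]
    have h2 := hw.eq n hn
    have h3 : (((T3 w w w n + 21 * (∑' q, w q ^ 2) * w n + 18 * w n ^ 3 : ℝ)) : ℂ) =
        ((ν * w n : ℝ) : ℂ) := by rw [h2]
    unfold K1 X1
    rw [h1, T3_ofReal w n, pr_ofReal w hw.even]
    push_cast at h3 ⊢
    linear_combination h3
  refine ⟨fun g => 2 * cl2 (pos W) (pos W) g, ν / 2, ?_, gsm, ?_, ?_⟩
  · refine ⟨gadd, gsmul, gt3, gdiv, gsum, gnz, hzero, hgood0, ?_, by linarith, ?_, ?_⟩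
    · intro g hg
      show 2 * cl2 (pos W) (pos W) g = 0
      rw [hW0supp g hg, mul_zero]
    · -- the profile
      have hG : Good2 (fun g => (((ν / 2 : ℝ)) : ℂ) * (2 * cl2 (pos W) (pos W) g)) :=
        gsmul _ _ hgood0
      refine ext_R2 CLT hVgood3 hG ?_ ?_
      · intro n hn0 hn
        have h1 := (FMT W W W W W W hWodd hWodd hWodd hWodd hWodd hWodd hWs hWs hWs hWs hWs hWs
          n hn).1
        rw [hVW0, h1, hcub n hn]
        show _ = (((ν / 2 : ℝ)) : ℂ) * (2 * cl2 (pos W) (pos W) ((n, 0), ![n, n]))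
        rw [cl2_fst _ _ n hn0 hn, pos_of hn0]
        push_cast
        ring
      · intro n hn0 hn
        have h1 := (FMT W W W W W W hWodd hWodd hWodd hWodd hWodd hWodd hWs hWs hWs hWs hWs hWs
          n hn).2
        rw [hVW0, h1, hcub n hn]
        show _ = (((ν / 2 : ℝ)) : ℂ) * (2 * cl2 (pos W) (pos W) ((0, n), ![n, 2 * n]))
        rw [cl2_snd _ _ n hn0 hn, pos_of hn0]
        push_cast
        ring
    · -- the inverse
      intro μ hμ F hF
      obtain ⟨hF1, hF2, _⟩ := CLT.2 F hF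
      obtain ⟨z1, z2, β, hz1, hz2, ho1, ho2, _, hz⟩ := INT w ν r hw (2 * μ) (by linarith) _ _
        hF1 hF2
      obtain ⟨hZgood, hZsupp, hVZ⟩ := CLT.1 z1 z2 hz1 hz2 ho1 ho2
      have hZ2 : Good2 (fun g => 2 * cl2 (pos z1) (pos z2) g) := by
        have := gsmul 2 _ hZgood
        simpa using this
      refine ⟨fun g => 2 * cl2 (pos z1) (pos z2) g, β / 2, hZ2, ?_, ?_⟩
      · intro g hg
        show 2 * cl2 (pos z1) (pos z2) g = 0
        rw [hZsupp g hg, mul_zero]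
      · have hT : Good2 (T3 (Vp (fun g => 2 * cl2 (pos W) (pos W) g))
            (Vp (fun g => 2 * cl2 (pos W) (pos W) g))
            (Vp (fun g => 2 * cl2 (pos z1) (pos z2) g))) := gt3 _ _ _ hgood0 hgood0 hZ2
        have hL : Good2 (fun g => (μ : ℂ) * (2 * cl2 (pos z1) (pos z2) g) -
            3 * T3 (Vp (fun g => 2 * cl2 (pos W) (pos W) g))
            (Vp (fun g => 2 * cl2 (pos W) (pos W) g))
            (Vp (fun g => 2 * cl2 (pos z1) (pos z2) g)) g) := by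
          have h1 := gadd _ _ (gsmul μ _ hZ2) (gsmul (-3) _ hT)
          refine Eq.mp (congrArg Good2 ?_) h1
          funext g
          push_cast
          ring
        have hR : Good2 (fun g => F g - (((β / 2 : ℝ)) : ℂ) * (2 * cl2 (pos W) (pos W) g)) := by
          have h1 := gadd _ _ hF (gsmul (-(β / 2)) _ hgood0)
          refine Eq.mp (congrArg Good2 ?_) h1
          funext g
          push_cast
          ring
        refine ext_R2 CLT hL hR ?_ ?_
        · intro n hn0 hn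
          have h1 := (FMT W W W W (hat z1) (hat z2) hWodd hWodd hWodd hWodd (hat_oddf ho1)
            (hat_oddf ho2) hWs hWs hWs hWs (hat_summable (exd_summable hz1))
            (hat_summable (exd_summable hz2)) n hn).1
          have h2 := (hz n hn0 hn).1
          show (μ : ℂ) * (2 * cl2 (pos z1) (pos z2) ((n, 0), ![n, n])) -
            3 * T3 (Vp (fun g => 2 * cl2 (pos W) (pos W) g))
            (Vp (fun g => 2 * cl2 (pos W) (pos W) g))
            (Vp (fun g => 2 * cl2 (pos z1) (pos z2) g)) ((n, 0), ![n, n]) =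
            F ((n, 0), ![n, n]) - (((β / 2 : ℝ)) : ℂ) *
              (2 * cl2 (pos W) (pos W) ((n, 0), ![n, n]))
          rw [hVW0, hVZ, h1, cl2_fst _ _ n hn0 hn, cl2_fst _ _ n hn0 hn, pos_of hn0, pos_of hn0]
          push_cast at h2 ⊢
          linear_combination h2
        · intro n hn0 hn
          have h1 := (FMT W W W W (hat z1) (hat z2) hWodd hWodd hWodd hWodd (hat_oddf ho1)
            (hat_oddf ho2) hWs hWs hWs hWs (hat_summable (exd_summable hz1))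
            (hat_summable (exd_summable hz2)) n hn).2
          have h2 := (hz n hn0 hn).2
          show (μ : ℂ) * (2 * cl2 (pos z1) (pos z2) ((0, n), ![n, 2 * n])) -
            3 * T3 (Vp (fun g => 2 * cl2 (pos W) (pos W) g))
            (Vp (fun g => 2 * cl2 (pos W) (pos W) g))
            (Vp (fun g => 2 * cl2 (pos z1) (pos z2) g)) ((0, n), ![n, 2 * n]) =
            F ((0, n), ![n, 2 * n]) - (((β / 2 : ℝ)) : ℂ) *
              (2 * cl2 (pos W) (pos W) ((0, n), ![n, 2 * n]))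
          rw [hVW0, hVZ, h1, cl2_snd _ _ n hn0 hn, cl2_snd _ _ n hn0 hn, pos_of hn0, pos_of hn0]
          push_cast at h2 ⊢
          linear_combination h2
  · show 2 * cl2 (pos W) (pos W) ((1, 0), ![1, 1]) = 2
    rw [cl2_fst _ _ 1 one_pos odd_one, pos_of one_pos]
    show 2 * ((w 1 : ℝ) : ℂ) = 2
    rw [hw.one, Complex.ofReal_one, mul_one]
  · intro p hp
    show 2 * cl2 (pos W) (pos W) (p, ![1, 1]) = 0
    obtain ⟨p1, p2⟩ := p
    unfold cl2
    have h2 : ¬ (((p1, p2), ![(1 : ℤ), 1]).1.1 = 0 ∧ Odd ((p1, p2), ![(1 : ℤ), 1]).1.2 ∧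
        |((p1, p2), ![(1 : ℤ), 1]).2 0| = |((p1, p2), ![(1 : ℤ), 1]).1.2| ∧
        |((p1, p2), ![(1 : ℤ), 1]).2 1| = 2 * |((p1, p2), ![(1 : ℤ), 1]).1.2|) := by
      rintro ⟨-, -, ha, hb⟩
      have ha' : |(1 : ℤ)| = |p2| := ha
      have hb' : |(1 : ℤ)| = 2 * |p2| := hb
      rw [← ha', abs_one] at hb'
      omega
    rw [if_neg h2, add_zero]
    split_ifs with h1
    · obtain ⟨ha, -, hb, -⟩ := h1
      have ha' : p2 = 0 := ha
      have hb' : |(1 : ℤ)| = |p1| := hb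
      rw [abs_one] at hb'
      have hp1 : p1 = -1 := by
        rcases (abs_eq zero_le_one).1 hb'.symm with h | h
        · exact absurd (by rw [h, ha']) hp
        · exact h
      have h3 : pos W p1 = 0 := by
        unfold pos
        rw [if_neg (by rw [hp1]; decide)]
      show 2 * (_ * pos W p1) = 0
      rw [h3, mul_zero, mul_zero]
    · rw [mul_zero]

end Pool.Agent.BOX.H66
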